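import Pool.Agent.Helper15.LP.Defs

set_option autoImplicit false

open Finset
open scoped Classical
open Pool.Agent.Helper15.LR

namespace Pool.Agent.Helper15.LP

section
variable {ι : Type} [Fintype ι]

noncomputable def FOUR_f (S : Finset ι) (t : ℝ) : ℝ :=
  (∏ _i ∈ S, (1 - t) / 2) * ∏ _i ∈ univ \ S, (1 + t) / 2

noncomputable def FOUR_c (S : Finset ι) : ℝ := ∫ t in (0 : ℝ)..1, FOUR_f S t

theorem FOUR_cont (S : Finset ι) : Continuous (FOUR_f S) := by
  unfold FOUR_f
  fun_prop

theorem FOUR_nonneg (S : Finset ι) : 0 ≤ FOUR_c S := by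
  unfold FOUR_c
  apply intervalIntegral.integral_nonneg (by norm_num)
  intro t ht
  unfold FOUR_f
  apply mul_nonneg
  · apply Finset.prod_nonneg
    intro i _
    linarith [ht.2]
  · apply Finset.prod_nonneg
    intro i _
    linarith [ht.1]

theorem FOUR_key (r : ι → Bool) :
    ∑ S : Finset ι, FOUR_c S * ∏ i ∈ S, sgn (r i) =
      1 / (1 + ((univ.filter (fun i => r i = false)).card : ℝ)) := by
  have h1 : ∀ S : Finset ι, FOUR_c S * ∏ i ∈ S, sgn (r i) =
      ∫ t in (0 : ℝ)..1, FOUR_f S t * ∏ i ∈ S, sgn (r i) := by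
    intro S
    rw [intervalIntegral.integral_mul_const]
    rfl
  rw [Finset.sum_congr rfl fun S _ => h1 S, ← intervalIntegral.integral_finset_sum]
  · have h2 : ∀ t : ℝ, ∑ S : Finset ι, FOUR_f S t * ∏ i ∈ S, sgn (r i) =
        t ^ (univ.filter (fun i => r i = false)).card := by
      intro t
      have h3 : ∏ i : ι, (sgn (r i) * ((1 - t) / 2) + (1 + t) / 2) =
          ∑ S : Finset ι, FOUR_f S t * ∏ i ∈ S, sgn (r i) := by
        rw [Finset.prod_add, Finset.powerset_univ]
        apply Finset.sum_congr rfl
        intro S _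
        unfold FOUR_f
        rw [Finset.prod_mul_distrib]
        ring
      rw [← h3]
      have h4 : ∀ i : ι, (sgn (r i) * ((1 - t) / 2) + (1 + t) / 2) =
          if r i = false then t else 1 := by
        intro i
        unfold sgn
        cases h : r i
        · simp; ring
        · simp; ring
      rw [Finset.prod_congr rfl fun i _ => h4 i, Finset.prod_ite, Finset.prod_const,
        Finset.prod_const_one, mul_one]
    simp only [h2]
    rw [integral_pow]
    rw [one_pow, zero_pow (by omega), sub_zero, add_comm]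
  · intro S _
    exact ((FOUR_cont S).mul continuous_const).intervalIntegrable _ _

end

theorem lp_FOUR : Fourier_stmt := by
  intro ι _
  refine ⟨FOUR_c, FOUR_nonneg, ?_, fun r => (FOUR_key r).symm⟩
  have h := FOUR_key (fun _ : ι => true)
  simp [sgn] at h
  exact h

end Pool.Agent.Helper15.LP
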