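import Pool.Agent.Helper15.LP.Defs

set_option autoImplicit false

open Finset
open scoped Classical
open Pool.Agent.Helper15.LR

namespace Pool.Agent.Helper15.LP

/-- flip the sign at `i` -/
noncomputable def khin_fl {ι : Type} (i : ι) (ε : ι → Bool) : ι → Bool :=
  Function.update ε i (!ε i)

theorem khin_fl_invol {ι : Type} (i : ι) : Function.Involutive (khin_fl i) := by
  intro ε
  funext j
  unfold khin_fl
  by_cases h : j = i
  · subst h; simp
  · simp [Function.update_of_ne h]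

noncomputable def khin_eq {ι : Type} (i : ι) : (ι → Bool) ≃ (ι → Bool) :=
  (khin_fl_invol i).toPerm

theorem khin_sum {ι : Type} [Fintype ι] (i : ι) (f : (ι → Bool) → ℝ) :
    ∑ ε : ι → Bool, f (khin_fl i ε) = ∑ ε : ι → Bool, f ε :=
  Equiv.sum_comp (khin_eq i) f

theorem khin_sgn {ι : Type} (i : ι) (ε : ι → Bool) :
    sgn (khin_fl i ε i) = - sgn (ε i) := by
  unfold khin_fl sgn
  cases h : ε i <;> simp [h]

theorem khin_sgn' {ι : Type} (i j : ι) (hj : j ≠ i) (ε : ι → Bool) :
    sgn (khin_fl i ε j) = sgn (ε j) := by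
  unfold khin_fl
  rw [Function.update_of_ne hj]

theorem khin_sq (b : Bool) : sgn b * sgn b = 1 := by
  unfold sgn; cases b <;> norm_num

section
variable {V ι : Type} [Fintype V] [DecidableEq V] [Fintype ι] (H : ι → Matrix V V ℝ)

noncomputable def khin_X (ε : ι → Bool) : Matrix V V ℝ := ∑ i, sgn (ε i) • H i

theorem khin_diff (i : ι) (ε : ι → Bool) :
    khin_X H ε - khin_X H (khin_fl i ε) = (2 * sgn (ε i)) • H i := by
  unfold khin_X
  rw [← Finset.sum_sub_distrib, Finset.sum_eq_single i]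
  · rw [khin_sgn, ← sub_smul]; congr 1; ring
  · intro j _ hj
    rw [khin_sgn' i j hj, sub_self]
  · intro h; exact absurd (Finset.mem_univ i) h

theorem khin_symm (hH : ∀ i, (H i).IsSymm) (ε : ι → Bool) : (khin_X H ε).IsSymm := by
  unfold khin_X Matrix.IsSymm
  rw [Matrix.transpose_sum]
  apply Finset.sum_congr rfl
  intro i _
  rw [Matrix.transpose_smul, (hH i)]

theorem khin_tel (A B : Matrix V V ℝ) (n : ℕ) :
    A ^ (n + 1) - B ^ (n + 1) = ∑ q ∈ Finset.range (n + 1), A ^ q * (A - B) * B ^ (n - q) := by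
  induction n with
  | zero => simp
  | succ n ih =>
    rw [Finset.sum_range_succ]
    have h1 : ∑ q ∈ Finset.range (n + 1), A ^ q * (A - B) * B ^ (n + 1 - q) =
        (∑ q ∈ Finset.range (n + 1), A ^ q * (A - B) * B ^ (n - q)) * B := by
      rw [Finset.sum_mul]
      apply Finset.sum_congr rfl
      intro q hq
      have : n + 1 - q = (n - q) + 1 := by
        have := Finset.mem_range.1 hq
        omega
      rw [this, pow_succ, ← mul_assoc]
    rw [h1, ← ih, Nat.sub_self, pow_zero, mul_one, sub_mul, ← pow_succ, pow_succ A (n + 1),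
      mul_sub, ← pow_succ A (n+1), pow_succ A (n+1)]
    have : B ^ (n + 1) * B = B ^ (n + 1 + 1) := (pow_succ B (n + 1)).symm
    rw [pow_succ B (n+1)]
    abel

theorem khin_step1 (i : ι) (ε : ι → Bool) (r : ℕ) :
    sgn (ε i) * ((H i * khin_X H ε ^ (2 * r + 1)).trace -
      (H i * khin_X H (khin_fl i ε) ^ (2 * r + 1)).trace) =
    2 * ∑ q ∈ Finset.range (2 * r + 1),
      (H i * khin_X H ε ^ q * H i * khin_X H (khin_fl i ε) ^ (2 * r - q)).trace := by
  rw [← Matrix.trace_sub, ← Matrix.mul_sub, khin_tel, khin_diff, Finset.mul_sum,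
    Matrix.trace_sum, Finset.mul_sum, Finset.mul_sum]
  apply Finset.sum_congr rfl
  intro q _
  rw [Matrix.mul_smul, Matrix.smul_mul, Matrix.mul_smul, Matrix.trace_smul, smul_eq_mul,
    ← mul_assoc, ← mul_assoc (H i), ← mul_assoc (H i)]
  have := khin_sq (ε i)
  have h2 : sgn (ε i) * (2 * sgn (ε i)) = 2 := by linarith
  rw [h2]

theorem khin_step2 (hT : TraceGM_stmt) (hH : ∀ i, (H i).IsSymm) (i : ι) (ε : ι → Bool) (r : ℕ) :
    2 * ∑ q ∈ Finset.range (2 * r + 1),
      (H i * khin_X H ε ^ q * H i * khin_X H (khin_fl i ε) ^ (2 * r - q)).trace ≤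
    (2 * r + 1) * ((H i * H i * khin_X H ε ^ (2 * r)).trace +
      (H i * H i * khin_X H (khin_fl i ε) ^ (2 * r)).trace) := by
  set F : ℕ → ℝ := fun q =>
    (H i * khin_X H ε ^ q * H i * khin_X H (khin_fl i ε) ^ (2 * r - q)).trace with hF
  have h1 : ∑ q ∈ Finset.range (2 * r + 1), F q = ∑ q ∈ Finset.range (2 * r + 1), F (2 * r - q) := by
    rw [← Finset.sum_range_reflect]
    apply Finset.sum_congr rfl
    intro q _
    congr 1
  have h2 : 2 * ∑ q ∈ Finset.range (2 * r + 1), F q =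
      ∑ q ∈ Finset.range (2 * r + 1), (F q + F (2 * r - q)) := by
    rw [Finset.sum_add_distrib, ← h1]; ring
  rw [h2]
  have h3 : ∀ q ∈ Finset.range (2 * r + 1), F q + F (2 * r - q) ≤
      (H i * H i * khin_X H ε ^ (2 * r)).trace +
      (H i * H i * khin_X H (khin_fl i ε) ^ (2 * r)).trace := by
    intro q hq
    have hq' : q ≤ 2 * r := by have := Finset.mem_range.1 hq; omega
    have h4 := hT V (H i) (khin_X H ε) (khin_X H (khin_fl i ε)) r q (hH i)
      (khin_symm H hH ε) (khin_symm H hH _) hq'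
    have h5 : 2 * r - (2 * r - q) = q := by omega
    simp only [hF, h5]
    exact h4
  refine (Finset.sum_le_sum h3).trans (le_of_eq ?_)
  rw [Finset.sum_const, Finset.card_range, nsmul_eq_mul]
  push_cast
  ring

theorem khin_psd (hH : ∀ i, (H i).IsSymm) (s : ℝ)
    (hs : ∀ x : V → ℝ, ∑ i, ∑ v, ((H i).mulVec x v) ^ 2 ≤ s * ∑ v, x v ^ 2)
    (ε : ι → Bool) (r : ℕ) :
    ∑ i, (H i * H i * khin_X H ε ^ (2 * r)).trace ≤ s * (khin_X H ε ^ (2 * r)).trace := by
  set Y := khin_X H ε ^ r with hY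
  have hYs : Y.transpose = Y := by
    rw [hY, Matrix.transpose_pow, (khin_symm H hH ε)]
  have hYY : khin_X H ε ^ (2 * r) = Y * Y := by rw [hY, ← pow_add]; congr 1; ring
  have h1 : ∀ i, (H i * H i * khin_X H ε ^ (2 * r)).trace =
      ∑ w, ∑ v, ((H i).mulVec (fun u => Y u w) v) ^ 2 := by
    intro i
    have h2 : (H i * H i * khin_X H ε ^ (2 * r)).trace =
        ((H i * Y).transpose * (H i * Y)).trace := by
      rw [Matrix.transpose_mul, hYs, hH i, hYY]
      rw [show H i * H i * (Y * Y) = (H i * H i * Y) * Y by rw [mul_assoc, mul_assoc, mul_assoc],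
        Matrix.trace_mul_comm]
      rw [mul_assoc, mul_assoc]
    rw [h2, Matrix.trace]
    apply Finset.sum_congr rfl
    intro w _
    rw [Matrix.diag_apply, Matrix.mul_apply]
    apply Finset.sum_congr rfl
    intro v _
    rw [Matrix.transpose_apply, Matrix.mul_apply, pow_two]
    rfl
  have h3 : (khin_X H ε ^ (2 * r)).trace = ∑ w, ∑ v, (Y v w) ^ 2 := by
    have h4 : khin_X H ε ^ (2 * r) = Y.transpose * Y := by rw [hYs, hYY]
    rw [h4, Matrix.trace]
    apply Finset.sum_congr rfl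
    intro w _
    rw [Matrix.diag_apply, Matrix.mul_apply]
    apply Finset.sum_congr rfl
    intro v _
    rw [Matrix.transpose_apply, pow_two]
  rw [Finset.sum_congr rfl fun i _ => h1 i, Finset.sum_comm, h3, Finset.mul_sum]
  exact Finset.sum_le_sum fun w _ => hs _

theorem khin_rec (hT : TraceGM_stmt) (hH : ∀ i, (H i).IsSymm) (s : ℝ)
    (hs : ∀ x : V → ℝ, ∑ i, ∑ v, ((H i).mulVec x v) ^ 2 ≤ s * ∑ v, x v ^ 2) (r : ℕ) :
    ∑ ε : ι → Bool, (khin_X H ε ^ (2 * (r + 1))).trace ≤
      (2 * r + 1) * s * ∑ ε : ι → Bool, (khin_X H ε ^ (2 * r)).trace := by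
  have h1 : ∀ ε, (khin_X H ε ^ (2 * (r + 1))).trace =
      ∑ i, sgn (ε i) * (H i * khin_X H ε ^ (2 * r + 1)).trace := by
    intro ε
    rw [show 2 * (r + 1) = (2 * r + 1) + 1 by ring, pow_succ']
    conv_lhs => rw [khin_X, Finset.sum_mul, Matrix.trace_sum]
    apply Finset.sum_congr rfl
    intro i _
    rw [Matrix.smul_mul, Matrix.trace_smul, smul_eq_mul]
    rfl
  rw [Finset.sum_congr rfl fun ε _ => h1 ε, Finset.sum_comm]
  have h2 : ∀ i, ∑ ε : ι → Bool, sgn (ε i) * (H i * khin_X H ε ^ (2 * r + 1)).trace ≤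
      (2 * r + 1) * ∑ ε : ι → Bool, (H i * H i * khin_X H ε ^ (2 * r)).trace := by
    intro i
    have h3 : ∑ ε : ι → Bool, sgn (ε i) * (H i * khin_X H ε ^ (2 * r + 1)).trace =
        ∑ ε : ι → Bool, sgn (khin_fl i ε i) *
          (H i * khin_X H (khin_fl i ε) ^ (2 * r + 1)).trace :=
      (khin_sum i (fun ε => sgn (ε i) * (H i * khin_X H ε ^ (2 * r + 1)).trace)).symm
    have h4 : 2 * ∑ ε : ι → Bool, sgn (ε i) * (H i * khin_X H ε ^ (2 * r + 1)).trace =
        ∑ ε : ι → Bool, sgn (ε i) * ((H i * khin_X H ε ^ (2 * r + 1)).trace -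
          (H i * khin_X H (khin_fl i ε) ^ (2 * r + 1)).trace) := by
      rw [two_mul]
      nth_rewrite 2 [h3]
      rw [← Finset.sum_add_distrib]
      apply Finset.sum_congr rfl
      intro ε _
      rw [khin_sgn]; ring
    have h5 : ∑ ε : ι → Bool, sgn (ε i) * ((H i * khin_X H ε ^ (2 * r + 1)).trace -
          (H i * khin_X H (khin_fl i ε) ^ (2 * r + 1)).trace) ≤
        ∑ ε : ι → Bool, (2 * r + 1) * ((H i * H i * khin_X H ε ^ (2 * r)).trace +
          (H i * H i * khin_X H (khin_fl i ε) ^ (2 * r)).trace) := by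
      apply Finset.sum_le_sum
      intro ε _
      rw [khin_step1]
      exact khin_step2 H hT hH i ε r
    have h6 : ∑ ε : ι → Bool, (H i * H i * khin_X H (khin_fl i ε) ^ (2 * r)).trace =
        ∑ ε : ι → Bool, (H i * H i * khin_X H ε ^ (2 * r)).trace :=
      khin_sum i (fun ε => (H i * H i * khin_X H ε ^ (2 * r)).trace)
    rw [← Finset.mul_sum, Finset.sum_add_distrib, h6] at h5
    linarith
  refine (Finset.sum_le_sum fun i _ => h2 i).trans ?_
  rw [← Finset.mul_sum, Finset.sum_comm, mul_assoc]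
  apply mul_le_mul_of_nonneg_left _ (by positivity)
  rw [Finset.mul_sum]
  exact Finset.sum_le_sum fun ε _ => khin_psd H hH s hs ε r

end

theorem lp_KHIN (hT : TraceGM_stmt) : Khintchine_stmt := by
  intro V ι _ _ _ H s p hH hs0 hs
  induction p with
  | zero =>
    simp only [mul_zero, pow_zero, Matrix.trace_one, Finset.sum_const, nsmul_eq_mul,
      Finset.card_univ, mul_one]
    apply le_of_eq
    congr 1
    rw [Fintype.card_fun]
    simp
  | succ r ih =>
    have h1 := khin_rec H hT hH s hs r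
    have h2 : (2 * r + 1) * s * ∑ ε : ι → Bool, (khin_X H ε ^ (2 * r)).trace ≤
        (2 * r + 1) * s * (2 ^ Fintype.card ι * (Fintype.card V * ((2 * r) ^ r * s ^ r))) := by
      apply mul_le_mul_of_nonneg_left ih (by positivity)
    refine (h1.trans h2).trans ?_
    have h3 : ((2 * r : ℝ) + 1) * (2 * r) ^ r ≤ (2 * ((r + 1 : ℕ) : ℝ)) ^ (r + 1) := by
      rw [pow_succ']
      push_cast
      apply mul_le_mul
      · linarith
      · apply pow_le_pow_left₀ (by positivity)
        linarith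
      · positivity
      · positivity
    calc (2 * (r : ℝ) + 1) * s * (2 ^ Fintype.card ι * (Fintype.card V * ((2 * r) ^ r * s ^ r)))
        = (2 ^ Fintype.card ι * (Fintype.card V * s ^ (r + 1))) * (((2 * r : ℝ) + 1) * (2 * r) ^ r) := by
          ring
      _ ≤ (2 ^ Fintype.card ι * (Fintype.card V * s ^ (r + 1))) *
          (2 * ((r + 1 : ℕ) : ℝ)) ^ (r + 1) := by
          apply mul_le_mul_of_nonneg_left h3 (by positivity)
      _ = _ := by ring

end Pool.Agent.Helper15.LP
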