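import Pool.Agent.Helper15.LP.Defs

set_option autoImplicit false

open Finset
open scoped Classical
open Pool.Agent.Helper15.LR

namespace Pool.Agent.Helper15.LP

section
variable {V : Type} [Fintype V] (G : SimpleGraph V) (a b : V → Bool) (s : Bool)

noncomputable def LAP_c (u v : V) : ℝ :=
  if G.Adj u v ∧ Ve a b s u ∧ Ve a b s v ∧ b v ≠ b u then 1 else 0

theorem LAP_c_symm (u v : V) : LAP_c G a b s u v = LAP_c G a b s v u := by
  unfold LAP_c
  congr 1
  rw [G.adj_comm]
  apply propext
  constructor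
  · rintro ⟨h1, h2, h3, h4⟩; exact ⟨h1, h3, h2, h4.symm⟩
  · rintro ⟨h1, h2, h3, h4⟩; exact ⟨h1, h3, h2, h4.symm⟩

theorem LAP_c_nonneg (u v : V) : 0 ≤ LAP_c G a b s u v := by
  unfold LAP_c; split_ifs <;> norm_num

theorem LAP_eq (z : V → ℝ) (u : V) (hu : Ve a b s u) :
    Lap G a b s z u = ∑ v, LAP_c G a b s u v * (z u - z v) := by
  unfold Lap Nb
  rw [Finset.filter_filter, Finset.sum_filter]
  apply Finset.sum_congr rfl
  intro v _
  unfold LAP_c
  by_cases h : G.Adj u v ∧ Ve a b s v ∧ b v ≠ b u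
  · rw [if_pos h, if_pos ⟨h.1, hu, h.2.1, h.2.2⟩, one_mul]
  · rw [if_neg h, if_neg (fun h' => h ⟨h'.1, h'.2.2.1, h'.2.2.2⟩), zero_mul]

noncomputable def LAP_B (z z' : V → ℝ) : ℝ :=
  ∑ u, (if Ve a b s u then Lap G a b s z u * z' u else 0)

theorem LAP_B_eq (z z' : V → ℝ) :
    LAP_B G a b s z z' =
      (1 / 2) * ∑ u, ∑ v, LAP_c G a b s u v * ((z u - z v) * (z' u - z' v)) := by
  have h1 : LAP_B G a b s z z' = ∑ u, ∑ v, LAP_c G a b s u v * (z u - z v) * z' u := by
    unfold LAP_B
    apply Finset.sum_congr rfl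
    intro u _
    by_cases hu : Ve a b s u
    · rw [if_pos hu, LAP_eq G a b s z u hu, Finset.sum_mul]
    · rw [if_neg hu]
      symm
      apply Finset.sum_eq_zero
      intro v _
      unfold LAP_c
      rw [if_neg (fun h => hu h.2.1)]
      ring
  have h2 : LAP_B G a b s z z' = ∑ u, ∑ v, -(LAP_c G a b s u v * (z u - z v) * z' v) := by
    rw [h1, Finset.sum_comm]
    apply Finset.sum_congr rfl
    intro u _
    apply Finset.sum_congr rfl
    intro v _
    rw [LAP_c_symm G a b s v u]
    ring
  have h3 : 2 * LAP_B G a b s z z' =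
      ∑ u, ∑ v, LAP_c G a b s u v * ((z u - z v) * (z' u - z' v)) := by
    rw [two_mul]
    nth_rewrite 1 [h1]
    rw [h2, ← Finset.sum_add_distrib]
    apply Finset.sum_congr rfl
    intro u _
    rw [← Finset.sum_add_distrib]
    apply Finset.sum_congr rfl
    intro v _
    ring
  linarith

theorem LAP_B_symm (z z' : V → ℝ) : LAP_B G a b s z z' = LAP_B G a b s z' z := by
  rw [LAP_B_eq, LAP_B_eq]
  congr 1
  apply Finset.sum_congr rfl
  intro u _
  apply Finset.sum_congr rfl
  intro v _
  ring

theorem LAP_B_nonneg (z : V → ℝ) : 0 ≤ LAP_B G a b s z z := by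
  rw [LAP_B_eq]
  apply mul_nonneg (by norm_num)
  apply Finset.sum_nonneg; intro u _
  apply Finset.sum_nonneg; intro v _
  exact mul_nonneg (LAP_c_nonneg G a b s u v) (mul_self_nonneg _)

theorem LAP_symm (K : ℝ) (θ θ' z z' : V → ℝ) (h : IsPot G a b s K θ z)
    (h' : IsPot G a b s K θ' z') :
    ∑ u, (if Ve a b s u then θ u * z' u else 0) = ∑ u, (if Ve a b s u then θ' u * z u else 0) := by
  have h1 : ∀ (θ θ' z z' : V → ℝ), IsPot G a b s K θ z →
      ∑ u, (if Ve a b s u then θ u * z' u else 0) =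
      LAP_B G a b s z z' + K * ∑ u, (if Ve a b s u then z u * z' u else 0) := by
    intro θ θ' z z' h
    unfold LAP_B
    rw [Finset.mul_sum, ← Finset.sum_add_distrib]
    apply Finset.sum_congr rfl
    intro u _
    by_cases hu : Ve a b s u
    · rw [if_pos hu, if_pos hu, if_pos hu, ← h.2 u hu]; ring
    · rw [if_neg hu, if_neg hu, if_neg hu]; ring
  rw [h1 θ θ' z z' h, h1 θ' θ z' z h', LAP_B_symm]
  congr 2
  apply Finset.sum_congr rfl
  intro u _
  rw [mul_comm]

theorem LAP_energy (K : ℝ) (hK : 0 < K) (θ z : V → ℝ) (h : IsPot G a b s K θ z) :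
    K ^ 2 * S2 z + ∑ u, (if Ve a b s u then Lap G a b s z u ^ 2 else 0) ≤
      ∑ u, (if Ve a b s u then θ u ^ 2 else 0) := by
  have h1 : ∑ u, (if Ve a b s u then θ u ^ 2 else 0) =
      ∑ u, (if Ve a b s u then Lap G a b s z u ^ 2 else 0) + 2 * K * LAP_B G a b s z z +
      K ^ 2 * S2 z := by
    unfold LAP_B S2
    rw [Finset.mul_sum, Finset.mul_sum, ← Finset.sum_add_distrib, ← Finset.sum_add_distrib]
    apply Finset.sum_congr rfl
    intro u _
    by_cases hu : Ve a b s u
    · rw [if_pos hu, if_pos hu, if_pos hu, ← h.2 u hu]; ring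
    · rw [if_neg hu, if_neg hu, if_neg hu, h.1 u hu]; ring
  have h2 := LAP_B_nonneg G a b s z
  rw [h1]
  nlinarith [mul_nonneg hK.le h2]

theorem LAP_zero (K : ℝ) (hK : 0 < K) (z : V → ℝ) (h : IsPot G a b s K (fun _ => 0) z) :
    z = fun _ => 0 := by
  have h1 := LAP_energy G a b s K hK _ z h
  have h2 : 0 ≤ ∑ u, (if Ve a b s u then Lap G a b s z u ^ 2 else 0) := by
    apply Finset.sum_nonneg; intro u _
    split_ifs
    · positivity
    · exact le_rfl
  have h3 : ∑ u, (if Ve a b s u then (0 : ℝ) ^ 2 else 0) = 0 := by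
    apply Finset.sum_eq_zero; intro u _
    split_ifs <;> simp
  rw [h3] at h1
  have h4 : S2 z ≤ 0 := by
    by_contra hc
    push Not at hc
    have : 0 < K ^ 2 * S2 z := by positivity
    linarith
  unfold S2 at h4
  have h5 : ∑ v, z v ^ 2 = 0 := le_antisymm h4 (Finset.sum_nonneg fun v _ => sq_nonneg _)
  rw [Finset.sum_eq_zero_iff_of_nonneg (fun v _ => sq_nonneg _)] at h5
  funext u
  have := h5 u (Finset.mem_univ u)
  exact pow_eq_zero_iff (two_ne_zero) |>.1 this

theorem LAP_lap_sub (z z' : V → ℝ) (u : V) :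
    Lap G a b s (fun v => z v - z' v) u = Lap G a b s z u - Lap G a b s z' u := by
  unfold Lap
  rw [← Finset.sum_sub_distrib]
  apply Finset.sum_congr rfl
  intro v _
  ring

theorem LAP_lap_add (z z' : V → ℝ) (u : V) :
    Lap G a b s (fun v => z v + z' v) u = Lap G a b s z u + Lap G a b s z' u := by
  unfold Lap
  rw [← Finset.sum_add_distrib]
  apply Finset.sum_congr rfl
  intro v _
  ring

theorem LAP_lap_smul (c : ℝ) (z : V → ℝ) (u : V) :
    Lap G a b s (fun v => c * z v) u = c * Lap G a b s z u := by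
  unfold Lap
  rw [Finset.mul_sum]
  apply Finset.sum_congr rfl
  intro v _
  ring

theorem LAP_unique (K : ℝ) (hK : 0 < K) (θ z z' : V → ℝ) (h : IsPot G a b s K θ z)
    (h' : IsPot G a b s K θ z') : z = z' := by
  have h1 : IsPot G a b s K (fun _ => 0) (fun v => z v - z' v) := by
    constructor
    · intro u hu
      show z u - z' u = 0
      rw [h.1 u hu, h'.1 u hu, sub_zero]
    · intro u hu
      rw [LAP_lap_sub]
      have h2 := h.2 u hu
      have h3 := h'.2 u hu
      show _ + K * (z u - z' u) = 0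
      linarith
  have h2 := LAP_zero G a b s K hK _ h1
  funext u
  have : z u - z' u = 0 := congrFun h2 u
  linarith

noncomputable def LAP_M (K : ℝ) : (V → ℝ) →ₗ[ℝ] (V → ℝ) where
  toFun z u := if Ve a b s u then Lap G a b s z u + K * z u else z u
  map_add' z z' := by
    funext u
    have := LAP_lap_add G a b s z z' u
    simp only [Pi.add_apply]
    by_cases hu : Ve a b s u
    · simp only [if_pos hu]
      rw [show (z + z' : V → ℝ) = fun v => z v + z' v from rfl, this]; ring
    · simp only [if_neg hu]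
  map_smul' c z := by
    funext u
    have := LAP_lap_smul G a b s c z u
    simp only [Pi.smul_apply, smul_eq_mul, RingHom.id_apply]
    by_cases hu : Ve a b s u
    · simp only [if_pos hu]
      rw [show (c • z : V → ℝ) = fun v => c * z v from rfl, this]; ring
    · simp only [if_neg hu]

theorem LAP_exists (K : ℝ) (hK : 0 < K) (θ : V → ℝ) : ∃ z, IsPot G a b s K θ z := by
  have hinj : Function.Injective (LAP_M G a b s K) := by
    rw [injective_iff_map_eq_zero]
    intro z hz
    have h1 : IsPot G a b s K (fun _ => 0) z := by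
      constructor
      · intro u hu
        have := congrFun hz u
        simpa [LAP_M, hu] using this
      · intro u hu
        have := congrFun hz u
        simpa [LAP_M, hu] using this
    exact LAP_zero G a b s K hK z h1
  have hsurj := LinearMap.injective_iff_surjective.1 hinj
  obtain ⟨z, hz⟩ := hsurj (fun u => if Ve a b s u then θ u else 0)
  refine ⟨z, ?_, ?_⟩
  · intro u hu
    have := congrFun hz u
    simpa [LAP_M, hu] using this
  · intro u hu
    have := congrFun hz u
    simpa [LAP_M, hu] using this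

theorem LAP_max (K : ℝ) (hK : 0 < K) (θ z : V → ℝ) (h : IsPot G a b s K θ z)
    (hθ : ∀ u, |θ u| ≤ 1) (u : V) : z u ≤ 1 / K := by
  obtain ⟨u0, -, hu0⟩ := Finset.exists_max_image (Finset.univ : Finset V) z ⟨u, Finset.mem_univ u⟩
  refine (hu0 u (Finset.mem_univ u)).trans ?_
  by_cases hz : z u0 ≤ 0
  · exact hz.trans (by positivity)
  · push Not at hz
    have hV : Ve a b s u0 := by
      by_contra hc
      rw [h.1 u0 hc] at hz
      exact lt_irrefl _ hz
    have h1 := h.2 u0 hV
    have h2 : 0 ≤ Lap G a b s z u0 := by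
      unfold Lap
      apply Finset.sum_nonneg
      intro v _
      have := hu0 v (Finset.mem_univ v)
      linarith
    have h3 := (abs_le.1 (hθ u0)).2
    rw [le_div_iff₀ hK]
    linarith

end

theorem lp_LAP : Lap_stmt := by
  intro V _ G a b s K hK
  refine ⟨LAP_exists G a b s K hK, fun θ z z' => LAP_unique G a b s K hK θ z z', ?_,
    fun θ θ' z z' => LAP_symm G a b s K θ θ' z z', fun θ z => LAP_energy G a b s K hK θ z⟩
  intro θ z h hθ u
  rw [abs_le]
  constructor
  · have h1 : IsPot G a b s K (fun v => -1 * θ v) (fun v => -1 * z v) := by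
      constructor
      · intro u hu; simp only; rw [h.1 u hu]; ring
      · intro u hu
        rw [LAP_lap_smul]
        show _ + K * (-1 * z u) = -1 * θ u
        rw [← h.2 u hu]; ring
    have h2 := LAP_max G a b s K hK _ _ h1 (by
      intro u
      rw [neg_one_mul, abs_neg]; exact hθ u) u
    linarith
  · exact LAP_max G a b s K hK θ z h hθ u

end Pool.Agent.Helper15.LP
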